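import Pool.Agent.P.MP_b2ff63_pr.Geom
import Pool.Agent.Lib.GRW.Exist

open MeasureTheory

namespace Pool.Agent.Results.MP_b2ff63_pr.NotTransient
open Pool.Agent.Lib.GRW

theorem result :
    ∃ (V : Type) (G : SimpleGraph V) (_ : G.LocallyFinite), G.Connected ∧
      (∃ D : ℕ, ∀ v, G.degree v ≤ D) ∧
      (∃ (φ : V → Fin 3 → ℤ) (a b c : ℝ), 1 ≤ a ∧ 0 ≤ b ∧ 0 ≤ c ∧
        (∀ x y : V, a⁻¹ * (G.dist x y : ℝ) - b ≤ ∑ i, |(φ x i : ℝ) - φ y i| ∧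
          ∑ i, |(φ x i : ℝ) - φ y i| ≤ a * (G.dist x y : ℝ) + b) ∧
        ∀ z : Fin 3 → ℤ, ∃ x : V, ∑ i, |(z i : ℝ) - φ x i| ≤ c) ∧
      ∃ o : V,
        (∃ (Ω : Type) (_ : MeasurableSpace Ω) (P : Measure Ω) (X : ℕ → Ω → V), IsGRW G o P X) ∧
        ∀ (Ω : Type) [MeasurableSpace Ω] (P : Measure Ω) (X : ℕ → Ω → V), IsGRW G o P X →
          ∀ᵐ ω ∂P, ∃ v : V, {t | X t ω = v}.Infinite := by
  open Pool.Agent.P.MP_b2ff63_pr in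
  exact ⟨O3.mg.V, O3.mg.G, inferInstance, connected3, ⟨102, O3.degree_le⟩,
    ⟨O3.proj, 2, 6 * 10 ^ 7, 0, by norm_num, by norm_num, le_rfl, rough3,
      fun z => ⟨O3.hub z, by simp [OG.hub, OG.proj]⟩⟩,
    O3.hub 0, exists_isGRW _ O3.mg.exists_adj _, fun _ _ _ _ h => not_transient h⟩

end Pool.Agent.Results.MP_b2ff63_pr.NotTransient
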