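import Pool.Agent.P.MP_b2ff63_pr.OsMain

open MeasureTheory

namespace Pool.Agent.Results.MP_b2ff63_pr.OddSparse
open Pool.Agent.Lib.GRW Pool.Agent.P.MP_b2ff63_pr.Os

theorem result (V : Type) [Infinite V] (G : SimpleGraph V) [G.LocallyFinite] (hc : G.Connected)
    (o : V) (ho : green G o o < ⊤)
    (hO : ∑' v : {v // Odd (G.degree v)}, green G v o < ⊤) (v₀ : V) :
    (∃ (Ω : Type) (_ : MeasurableSpace Ω) (P : Measure Ω) (X : ℕ → Ω → V), IsGRW G v₀ P X) ∧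
    ∀ (Ω : Type) [MeasurableSpace Ω] (P : Measure Ω) (X : ℕ → Ω → V), IsGRW G v₀ P X →
      ∀ᵐ ω ∂P, ∀ v : V, {t | X t ω = v}.Finite := by
  haveI := countable_of_connected hc
  exact ⟨exists_isGRW G (exists_adj hc) v₀,
    fun _ _ _ _ h => transient hc (exists_adj hc) ho.ne hO.ne h⟩

end Pool.Agent.Results.MP_b2ff63_pr.OddSparse
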